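import Mathlib

namespace Pool.Agent.Results.MP_32b555_nt.Extension

/-- Upper quasi-densities on the positive integers. -/
structure UQDPos (μ : Set ℕ+ → ℝ) : Prop where
  f1 : μ Set.univ = 1
  f3 : ∀ X Y, μ (X ∪ Y) ≤ μ X + μ Y
  f4 : ∀ X (h k : ℕ+), μ ((fun x => k * x + h) '' X) = 1 / ((k : ℕ) : ℝ) * μ X
  le1 : ∀ X, μ X ≤ 1

/-- Upper quasi-densities on the natural numbers. -/
structure UQDNat (ν : Set ℕ → ℝ) : Prop where
  f1 : ν Set.univ = 1
  f3 : ∀ X Y, ν (X ∪ Y) ≤ ν X + ν Y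
  f4 : ∀ X (h k : ℕ+), ν ((fun x => (k : ℕ) * x + (h : ℕ)) '' X) = 1 / ((k : ℕ) : ℝ) * ν X
  le1 : ∀ X, ν X ≤ 1

theorem result (μ : Set ℕ+ → ℝ) (hμ : UQDPos μ) :
    ∃! ν : Set ℕ → ℝ, UQDNat ν ∧ ∀ X : Set ℕ+, ν ((fun x : ℕ+ => (x : ℕ)) '' X) = μ X := by
  have sh : ∀ X (h : ℕ+), μ ((fun x => x + h) '' X) = μ X := fun X h => by
    simpa using hμ.f4 X h 1
  refine ⟨fun X => μ (Nat.succPNat '' X), ⟨⟨?_, ?_, ?_, fun X => hμ.le1 _⟩, ?_⟩, ?_⟩
  · have : Nat.succPNat '' Set.univ = Set.univ :=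
      Set.image_univ_of_surjective fun x => ⟨x.natPred, PNat.succPNat_natPred x⟩
    simp only [this, hμ.f1]
  · intro X Y
    simp only [Set.image_union]
    exact hμ.f3 _ _
  · intro X h k
    show μ _ = _ * μ _
    rw [← hμ.f4 _ (h + 1) k, ← sh _ k]
    simp only [Set.image_image]
    refine congrArg μ (Set.image_congr fun x _ => PNat.eq ?_)
    simp only [PNat.add_coe, PNat.mul_coe, Nat.succPNat_coe, PNat.one_coe, Nat.succ_eq_add_one]
    ring
  · intro X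
    show μ _ = _
    rw [← sh X 1]
    simp only [Set.image_image]
    refine congrArg μ (Set.image_congr fun x _ => PNat.eq ?_)
    simp
  · rintro ν ⟨hν, he⟩
    funext X
    have h1 := hν.f4 X 1 1
    rw [← he, Set.image_image]
    simp only [PNat.one_coe, Nat.cast_one, div_one, one_mul] at h1
    rw [← h1]
    refine congrArg ν (Set.image_congr fun x _ => ?_)
    simp

end Pool.Agent.Results.MP_32b555_nt.Extension
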